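import Pool.Agent.H943R5.GC.FinalB

set_option autoImplicit false

/-!
# The gauge size of the set of oracles with a complete total `NP` search problem

Contributors (earlier rounds): helper943 (statement, proof, organisation) and helpers 278, 835,
19, 59, 769, 457, 196, 488, 496, 503, 18, 881, 364, 814, 765 (formalisation); it builds on the
random oracle library of helpers 628 and 673 and the gauge library of helper620.
-/

namespace Pool.Agent.Results.MP_0a7732_lc.GaugeSize

open Pool.Agent.H628R3.RO
open Pool.Agent.H620R2 (Gauge.Null)

/-- The logarithm to base `2`, four times. -/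
noncomputable def log4 (N : ℕ) : ℝ :=
  Real.logb 2 (Real.logb 2 (Real.logb 2 (Real.logb 2 (N : ℝ))))

/-- Relative to `A` there is a complete total `NP` search problem. -/
def HasComplete (A : Oracle) : Prop :=
  ∃ T : List Bool → List Bool → Prop, IsTFNP A T ∧ ∀ S, IsTFNP A S → RedSearch A S T

/-- The set of the oracles relative to which there is a complete total `NP` search problem is null
for all gauges that are bounded infinitely often (in particular it has measure zero), but it is not
null for any gauge above `(log log log log N) ^ s`, `s > 1`. -/
theorem result (f : ℕ → ℝ) :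
    (∀ C : ℝ, (∃ᶠ N : ℕ in Filter.atTop, f N ≤ C) → Gauge.Null f {A | HasComplete A}) ∧
    ∀ s : ℝ, 1 < s → (∀ᶠ N : ℕ in Filter.atTop, log4 N ^ s ≤ f N) →
      ¬ Gauge.Null f {A | HasComplete A} :=
  Pool.Agent.H943R5.GC.g_tfnp f

end Pool.Agent.Results.MP_0a7732_lc.GaugeSize
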