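import Pool.Agent.TH654.TF.Hier

/-!
# No total NP search problem is complete under reductions computable in a fixed polynomial time
-/

set_option autoImplicit false

namespace Pool.Agent.Results.MP_0a7732_lc.NoFixedTimeComplete

open Pool.Agent.TH654.TF
open Pool.Agent.NPC (pairBits)

/-- For every total NP search problem `T`, every polynomial `q` and every exponent `k` there is a
total NP search problem `S` whose solutions for instances of length `n` have length at most
`3 * p_T (q n) + 2` and which reduces to `T` in polynomial time, but not by any pair of maps `f`,
`g` computable in time `O(n ^ k)` with `|f x| ≤ q |x|`: for all sufficiently large `n`, and even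
if any advice string `u` of length at most `n / 5` is written in front of the inputs of `f` and
`g`, the pair fails on some instance `x` of length `n`. -/
theorem result (T : Search) (q : Polynomial ℕ) (k : ℕ) :
    ∃ S : Search, S.Reduces T ∧ S.p = 3 * T.p.comp q + 2 ∧
      ∀ f g, TimePow k f → TimePow k g →
        ∃ n₀, ∀ n, n₀ ≤ n → ∀ u : List Bool, 5 * u.length ≤ n →
          (∀ x, x.length = n → (f (u ++ x)).length ≤ q.eval n) →
          ∃ x y, x.length = n ∧ T.Sol (f (u ++ x)) y ∧
            ¬ S.Sol x (g (u ++ pairBits x y)) :=
  ⟨diag T q k, diag_reduces T q k, rfl, fun _ _ hf hg => diag_not_via T q k hf hg⟩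

end Pool.Agent.Results.MP_0a7732_lc.NoFixedTimeComplete
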