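import Pool.Agent.TH654.TU.Main

set_option autoImplicit false

/-!
# Relative to a random oracle no total `NP` search problem is hard for unique solutions

Polynomial time is Mathlib's `Turing.TM2ComputableInPolyTime`; the oracle notions are those of
`Pool.Agent.H628R3.RO.Defs`.

For almost every oracle `A`, no total `NP` search problem `T` relative to `A` is hard even for the
total `NP` search problems relative to `A` in which every instance has exactly one solution; so
there is no complete total `NP` search problem, and none for any class of total search problems
containing those with unique solutions. Moreover, not even all languages in `UP ∩ coUP` relative
to `A` can be decided by one call to `T`.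

The proof uses the blocks of `Pool.Agent.H673R3.UC` (helpers 583, 628 and 673 of earlier rounds):
an instance is a pair of halves of a block of the random oracle together with certificates that all
other pairs of the block have at least two hits; the pair of the instance has exactly one hit and
the language asks in which half. New is the use of the blocks in which the pair of the instance has
no hit (`Pool.Agent.TH654.TU`): there `T` has a solution, or totality fails; in the first case this
solution and the answer computed from it survive when a hit is added at most places of both halves.
-/

namespace Pool.Agent.Results.MP_0a7732_lc.RandomOracle

open Pool.Agent.NPC Pool.Agent.H628R3.RO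

/-- For almost every oracle `A`, for every total `NP` search problem `T` relative to `A`:
(1) there is a total `NP` search problem `S` relative to `A` with unique solutions that does not
reduce to `T` relative to `A`;
(2) there is a language `L` such that `L` and its complement are in `UP` relative to `A`, and `L`
cannot be decided by one call to `T`: there are no functions `F`, `G` computable in polynomial time
relative to `A` such that `G` decides correctly, given `x` and any solution of the instance `F x` of
`T`, whether `x ∈ L`. -/
theorem result : ∀ᵐ A ∂randomOracle, ∀ T : List Bool → List Bool → Prop, IsTFNP A T →
    (∃ S : List Bool → List Bool → Prop, IsTFNP A S ∧ (∀ x y y', S x y → S x y' → y = y') ∧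
      ¬ RedSearch A S T) ∧
    ∃ L : Set (List Bool), IsUP A L ∧ IsUP A Lᶜ ∧
      ¬ ∃ F G : List Bool → List Bool, IsFP A F ∧ IsFP A G ∧
        ∀ x y, T (F x) y → (G (pairBits x y) = [true] ↔ x ∈ L) := by
  filter_upwards [Pool.Agent.TH654.TU.main_TFUP, Pool.Agent.TH654.TU.main_D] with A h1 h2 T hT
  exact ⟨h1 T hT, h2 T hT⟩

end Pool.Agent.Results.MP_0a7732_lc.RandomOracle
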